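import Pool.Agent.K1H35.JA.Stm

/-!
Piece JA-LAN1: the gcds of the weights of closed walks with letters `i` and `none`.
-/

set_option autoImplicit false

namespace Pool.Agent.K1H23.JA

open Finset Pool.Agent.K1H35.JA

variable {n k : ℕ}

/-- walk with labels `none` and `some i`: list of the visited states without the last one, number
of labels `some i` -/
inductive WL (A : Aut n k) (i : Fin k) : List (Fin n) → ℕ → Fin n → Fin n → Prop
  | nil (q : Fin n) : WL A i [] 0 q q
  | c0 {q r s : Fin n} {L : List (Fin n)} {a : ℕ} :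
      A.step q none r → WL A i L a r s → WL A i (q :: L) a q s
  | c1 {q r s : Fin n} {L : List (Fin n)} {a : ℕ} :
      A.step q (some i) r → WL A i L a r s → WL A i (q :: L) (a + 1) q s

variable {A : Aut n k} {i : Fin k}

lemma WL.reach {L : List (Fin n)} {a : ℕ} {q r : Fin n} (h : WL A i L a q r) :
    Reach A q (a • e i) r := by
  induction h with
  | nil q => rw [zero_smul]; exact Reach.nil q
  | @c0 q r s L a h1 _ ih =>
    have := Reach.cons h1 ih
    simpa [vec] using this
  | @c1 q r s L a h1 _ ih =>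
    have := Reach.cons h1 ih
    have e1 : vec (some i) + a • e i = (a + 1) • e i := by
      unfold vec
      rw [add_comm, succ_nsmul]
    rwa [e1] at this

lemma e_self (i : Fin k) : e i i = 1 := by simp [e]

lemma e_ne {i j : Fin k} (h : j ≠ i) : e i j = 0 := by simp [e, h]

lemma reach_WL {x : Fin k → ℕ} {q r : Fin n} (h : Reach A q x r) :
    ∀ a : ℕ, x = a • e i → ∃ L, WL A i L a q r := by
  induction h with
  | nil q =>
    intro a ha
    have h1 := congrFun ha i
    simp [e_self] at h1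
    subst h1
    exact ⟨[], WL.nil q⟩
  | @cons q r s b x h1 _ ih =>
    intro a ha
    cases b with
    | none =>
      have hx : x = a • e i := by simpa [vec] using ha
      obtain ⟨L, hL⟩ := ih a hx
      exact ⟨q :: L, WL.c0 h1 hL⟩
    | some j =>
      have hji : j = i := by
        by_contra hne
        have h2 := congrFun ha j
        simp [vec, e_self, e_ne hne] at h2
      subst hji
      have h2 := congrFun ha j
      simp [vec, e_self] at h2
      obtain ⟨a', rfl⟩ : ∃ a', a = a' + 1 := ⟨a - 1, by omega⟩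
      have hx : x = a' • e j := by
        funext l
        have h3 := congrFun ha l
        by_cases hl : l = j
        · subst hl
          simp [vec, e_self] at h3 ⊢
          omega
        · simp [vec, e_ne hl] at h3 ⊢
          omega
      obtain ⟨L, hL⟩ := ih a' hx
      exact ⟨q :: L, WL.c1 h1 hL⟩

lemma WL.append {L1 L2 : List (Fin n)} {a1 a2 : ℕ} {q r s : Fin n} (h1 : WL A i L1 a1 q r)
    (h2 : WL A i L2 a2 r s) : WL A i (L1 ++ L2) (a1 + a2) q s := by
  induction h1 with
  | nil q => simpa using h2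
  | @c0 q r' s' L a h _ ih => exact WL.c0 h (ih h2)
  | @c1 q r' s' L a h _ ih =>
    have := WL.c1 h (ih h2)
    rw [show a + 1 + a2 = a + a2 + 1 by ring]
    exact this

lemma WL.split {L1 L2 : List (Fin n)} {a : ℕ} {q s : Fin n} (h : WL A i (L1 ++ L2) a q s) :
    ∃ (r : Fin n) (a1 a2 : ℕ), WL A i L1 a1 q r ∧ WL A i L2 a2 r s ∧ a = a1 + a2 := by
  induction L1 generalizing a q with
  | nil => exact ⟨q, 0, a, WL.nil q, h, by simp⟩
  | cons y t ih =>
    rw [List.cons_append] at h
    cases h with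
    | c0 h1 h2 =>
      obtain ⟨r, a1, a2, h3, h4, h5⟩ := ih h2
      exact ⟨r, a1, a2, WL.c0 h1 h3, h4, h5⟩
    | c1 h1 h2 =>
      obtain ⟨r, a1, a2, h3, h4, h5⟩ := ih h2
      exact ⟨r, a1 + 1, a2, WL.c1 h1 h3, h4, by omega⟩

lemma WL.head {x : Fin n} {L : List (Fin n)} {a : ℕ} {q s : Fin n} (h : WL A i (x :: L) a q s) :
    q = x := by
  cases h <;> rfl

lemma WL.le_length {L : List (Fin n)} {a : ℕ} {q s : Fin n} (h : WL A i L a q s) :
    a ≤ L.length := by
  induction h with
  | nil q => simp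
  | c0 _ _ ih => simp; omega
  | c1 _ _ ih => simp; omega

lemma exists_dup {α : Type*} [DecidableEq α] (L : List α) (h : ¬ L.Nodup) :
    ∃ (l1 : List α) (x : α) (l2 l3 : List α), L = l1 ++ (x :: l2 ++ x :: l3) := by
  induction L with
  | nil => exact absurd List.nodup_nil h
  | cons y t ih =>
    by_cases hy : y ∈ t
    · obtain ⟨l2, l3, rfl⟩ := List.append_of_mem hy
      exact ⟨[], y, l2, l3, by simp⟩
    · have ht : ¬ t.Nodup := fun h1 => h (List.nodup_cons.2 ⟨hy, h1⟩)
      obtain ⟨l1, x, l2, l3, rfl⟩ := ih ht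
      exact ⟨y :: l1, x, l2, l3, by simp⟩

/-- connected in both directions -/
def SC (A : Aut n k) (i : Fin k) (q r : Fin n) : Prop :=
  (∃ L a, WL A i L a q r) ∧ ∃ L a, WL A i L a r q

/-- weights of closed walks -/
def B (A : Aut n k) (i : Fin k) (q : Fin n) : Set ℕ := {a | ∃ L, WL A i L a q q}

/-- their gcd -/
noncomputable def d (A : Aut n k) (i : Fin k) (q : Fin n) : ℕ := Nat.setGcd (B A i q)

lemma d_dvd {q : Fin n} {a : ℕ} (h : a ∈ B A i q) : d A i q ∣ a := Nat.setGcd_dvd_of_mem h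

lemma SC.symm {q r : Fin n} (h : SC A i q r) : SC A i r q := ⟨h.2, h.1⟩

lemma d_dvd_of_SC {q r : Fin n} (h : SC A i q r) : d A i q ∣ d A i r := by
  refine Nat.dvd_setGcd_iff.2 ?_
  rintro a ⟨L, hL⟩
  obtain ⟨⟨L1, a1, h1⟩, L2, a2, h2⟩ := h
  have e1 : d A i q ∣ a1 + a2 := d_dvd ⟨_, h1.append h2⟩
  have e2 : d A i q ∣ a1 + (a + a2) := d_dvd ⟨_, h1.append (hL.append h2)⟩
  have e3 : a1 + (a + a2) = (a1 + a2) + a := by ring
  rw [e3] at e2
  exact (Nat.dvd_add_right e1).1 e2

lemma d_eq_of_SC {q r : Fin n} (h : SC A i q r) : d A i q = d A i r :=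
  Nat.dvd_antisymm (d_dvd_of_SC h) (d_dvd_of_SC h.symm)

/-- there is a closed walk of positive weight -/
def Pos (A : Aut n k) (i : Fin k) (q : Fin n) : Prop := ∃ a, 0 < a ∧ a ∈ B A i q

lemma Pos.of_SC {q r : Fin n} (h : SC A i q r) (hq : Pos A i q) : Pos A i r := by
  obtain ⟨a, ha, L, hL⟩ := hq
  obtain ⟨⟨L1, a1, h1⟩, L2, a2, h2⟩ := h
  exact ⟨a2 + (a + a1), by omega, _, h2.append (hL.append h1)⟩

lemma d_pos {q : Fin n} (hq : Pos A i q) : 0 < d A i q := by
  obtain ⟨a, ha, hB⟩ := hq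
  exact Nat.pos_of_dvd_of_pos (d_dvd hB) ha

lemma SC.trans {q r s : Fin n} (h : SC A i q r) (h' : SC A i r s) : SC A i q s := by
  obtain ⟨⟨L1, a1, h1⟩, L2, a2, h2⟩ := h
  obtain ⟨⟨L3, a3, h3⟩, L4, a4, h4⟩ := h'
  exact ⟨⟨_, _, h1.append h3⟩, _, _, h4.append h2⟩

lemma SC.refl (q : Fin n) : SC A i q q := ⟨⟨[], 0, WL.nil q⟩, [], 0, WL.nil q⟩

/-- states on a closed walk are connected in both directions -/
lemma SC_of_mem {q x : Fin n} {L : List (Fin n)} {a : ℕ} (h : WL A i L a q q) (hx : x ∈ L) :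
    SC A i q x := by
  obtain ⟨l1, l2, rfl⟩ := List.append_of_mem hx
  obtain ⟨r, a1, a2, h1, h2, -⟩ := h.split
  have := h2.head
  subst this
  exact ⟨⟨_, _, h1⟩, _, _, h2⟩

lemma card_ge {q : Fin n} (hq : Pos A i q) :
    ∃ s : Finset (Fin n), d A i q ≤ s.card ∧ ∀ x ∈ s, Pos A i x ∧ d A i x = d A i q := by
  classical
  have hex : ∃ l : ℕ, ∃ (q' : Fin n) (L : List (Fin n)) (a : ℕ), SC A i q q' ∧
      WL A i L a q' q' ∧ 0 < a ∧ L.length = l := by
    obtain ⟨a, ha, L, hL⟩ := hq
    exact ⟨L.length, q, L, a, SC.refl q, hL, ha, rfl⟩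
  obtain ⟨q', L, a, hSC, hL, ha, hlen⟩ := Nat.find_spec hex
  have hmin : ∀ (q'' : Fin n) (L' : List (Fin n)) (a' : ℕ), SC A i q q'' →
      WL A i L' a' q'' q'' → 0 < a' → L.length ≤ L'.length := by
    intro q'' L' a' h1 h2 h3
    rw [hlen]
    exact Nat.find_min' hex ⟨q'', L', a', h1, h2, h3, rfl⟩
  have hnd : L.Nodup := by
    by_contra hcon
    obtain ⟨l1, x, l2, l3, rfl⟩ := exists_dup L hcon
    have hxS : SC A i q' x := SC_of_mem hL (by simp)
    obtain ⟨r, a1, a2, h1, h2, e1⟩ := hL.split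
    obtain ⟨r', a3, a4, h3, h4, e2⟩ := h2.split
    have hr : r = x := h3.head
    have hr' : r' = x := h4.head
    subst hr
    subst hr'
    by_cases h0 : 0 < a3
    · have := hmin r' _ a3 (hSC.trans hxS) h3 h0
      simp at this
      omega
    · have := hmin q' _ (a1 + a4) hSC (h1.append h4) (by omega)
      simp at this
      omega
  refine ⟨L.toFinset, ?_, ?_⟩
  · rw [List.toFinset_card_of_nodup hnd]
    have h1 : d A i q' ∣ a := d_dvd ⟨L, hL⟩
    rw [d_eq_of_SC hSC]
    exact (Nat.le_of_dvd ha h1).trans hL.le_length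
  · intro x hx
    have hx' := SC_of_mem hL (List.mem_toFinset.1 hx)
    have := hSC.trans hx'
    exact ⟨hq.of_SC this, (d_eq_of_SC this).symm⟩

theorem t_LAN1 : S_LAN1 := by
  intro n k A i
  classical
  set s : Finset (Fin n) := univ.filter (fun q => Pos A i q) with hs
  refine ⟨s.image (d A i), ?_, ?_, ?_, ?_⟩
  · intro v hv
    obtain ⟨q, hq, rfl⟩ := mem_image.1 hv
    exact d_pos (mem_filter.1 hq).2
  · calc ∑ v ∈ s.image (d A i), v
        ≤ ∑ v ∈ s.image (d A i), (s.filter (fun q => d A i q = v)).card := by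
          refine sum_le_sum ?_
          intro v hv
          obtain ⟨q, hq, rfl⟩ := mem_image.1 hv
          obtain ⟨t, h1, h2⟩ := card_ge (mem_filter.1 hq).2
          refine h1.trans (card_le_card ?_)
          intro x hx
          exact mem_filter.2 ⟨mem_filter.2 ⟨mem_univ _, (h2 x hx).1⟩, (h2 x hx).2⟩
      _ = s.card := (card_eq_sum_card_image _ _).symm
      _ ≤ (univ : Finset (Fin n)).card := card_le_card (filter_subset _ _)
      _ = n := by simp
  · apply Nat.pos_of_ne_zero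
    intro h0
    rw [Finset.lcm_eq_zero_iff] at h0
    obtain ⟨v, hv, hv0⟩ := h0
    obtain ⟨q, hq, rfl⟩ := mem_image.1 hv
    have := d_pos (mem_filter.1 hq).2
    simp at hv0
    omega
  · intro q g hg hpos
    have hB : ∀ a ∈ B A i q, g ∣ a := by
      rintro a ⟨L, hL⟩
      exact hg a hL.reach
    have hP : Pos A i q := by
      obtain ⟨a, ha, hr⟩ := hpos
      obtain ⟨L, hL⟩ := reach_WL hr a rfl
      exact ⟨a, ha, L, hL⟩
    have h1 : g ∣ d A i q := Nat.dvd_setGcd_iff.2 hB
    have hmem : d A i q ∈ s.image (d A i) :=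
      mem_image_of_mem _ (mem_filter.2 ⟨mem_univ _, hP⟩)
    exact h1.trans (Finset.dvd_lcm hmem)

end Pool.Agent.K1H23.JA
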